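import Pool.Agent.Q95.DQ.F

/-!
# Positivity of sums of products of q-Delannoy numbers (MP_870110_co, Q1)
-/

set_option autoImplicit false

namespace Pool.Agent.Results.MP_870110_co.DelannoyPositivity

open Polynomial

/-- The Gaussian coefficient `N` over `K` at the element `x` of `ℚ(q)`, zero when `K > N`. -/
noncomputable def gauss (x : RatFunc ℚ) (N K : ℕ) : RatFunc ℚ :=
  if K ≤ N then ∏ i ∈ Finset.Icc 1 K, (1 - x ^ (N - K + i)) / (1 - x ^ i) else 0

/-- The `q`-Delannoy number `D_x(m, n)`. -/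
noncomputable def D (x : RatFunc ℚ) (m n : ℕ) : RatFunc ℚ :=
  ∑ k ∈ Finset.range (n + 1), x ^ (k * (k - 1) / 2) * gauss x n k * gauss x (n + m - k) n

/-- `P_k = D_q(m, k) D_{1/q}(m, k)`. -/
noncomputable def P (m k : ℕ) : RatFunc ℚ := D RatFunc.X m k * D (RatFunc.X)⁻¹ m k

/-- The rational function `A`. -/
noncomputable def A (m n : ℕ) : RatFunc ℚ :=
  (1 - RatFunc.X ^ m) * (1 - RatFunc.X ^ (m + 1)) /
      ((1 - RatFunc.X ^ 2) * (1 - RatFunc.X ^ n) ^ 2) *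
    ∑ k ∈ Finset.range n, (1 - RatFunc.X ^ (2 * k + 1)) * (RatFunc.X ^ k)⁻¹ * P m k

/-- The rational function `B`. -/
noncomputable def B (m n r : ℕ) : RatFunc ℚ :=
  1 / (1 - RatFunc.X ^ n) *
    ∑ k ∈ Finset.range n, (1 - RatFunc.X ^ (2 * k + 1)) * (RatFunc.X ^ k)⁻¹ * P m k ^ r

/-- The rational function `C`. -/
noncomputable def C (m n r : ℕ) : RatFunc ℚ :=
  1 / (1 - RatFunc.X ^ n) *
    ∑ k ∈ Finset.range n, (-1) ^ (n - 1 - k) * (1 - RatFunc.X ^ (2 * k + 1)) *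
      RatFunc.X ^ (k * (k - 1) / 2) * P m k ^ r

/-- `f` is a Laurent polynomial in `q` all of whose coefficients are natural numbers. -/
def NonnegLaurent (f : RatFunc ℚ) : Prop :=
  ∃ (N : ℕ) (p : ℕ[X]), f =
    algebraMap ℚ[X] (RatFunc ℚ) (p.map (Nat.castRingHom ℚ)) / RatFunc.X ^ N

theorem D_eq {x : RatFunc ℚ} (h : Q95.CQ.Gen x) (m n : ℕ) : D x m n = Q95.DQ.dd x m n := by
  unfold D Q95.DQ.dd
  refine Finset.sum_congr rfl fun k _ => ?_
  unfold gauss
  rw [Q95.DQ.gauss_eq h, Q95.DQ.gauss_eq h, Nat.choose_two_right]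

theorem P_eq (m k : ℕ) : P m k = Q95.DQ.Uf RatFunc.X k m := by
  unfold P
  rw [D_eq Q95.CQ.gen_X, D_eq (Q95.DQ.gen_inv Q95.CQ.gen_X), Q95.DQ.prod_eq_Uf Q95.CQ.gen_X]

/-- the semiring of Laurent polynomials with natural coefficients -/
noncomputable def RP : Subsemiring (RatFunc ℚ) := Q95.CQ.Lau
  ((algebraMap ℚ[X] (RatFunc ℚ)).comp (Polynomial.mapRingHom (Nat.castRingHom ℚ)))

theorem phiX : ((algebraMap ℚ[X] (RatFunc ℚ)).comp
    (Polynomial.mapRingHom (Nat.castRingHom ℚ))) X = RatFunc.X := by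
  simp

theorem X_mem : RatFunc.X ∈ RP := by
  have := Q95.CQ.Lau_X
    ((algebraMap ℚ[X] (RatFunc ℚ)).comp (Polynomial.mapRingHom (Nat.castRingHom ℚ)))
  rwa [phiX] at this

theorem X_inv_mem : (RatFunc.X)⁻¹ ∈ RP := by
  have := Q95.CQ.Lau_inv
    ((algebraMap ℚ[X] (RatFunc ℚ)).comp (Polynomial.mapRingHom (Nat.castRingHom ℚ)))
    (by rw [phiX]; exact RatFunc.X_ne_zero)
  rwa [phiX] at this

theorem of_mem {f : RatFunc ℚ} (hf : f ∈ RP) : NonnegLaurent f := by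
  obtain ⟨N, p, hp⟩ := hf
  rw [phiX] at hp
  refine ⟨N, p, ?_⟩
  rw [eq_div_iff (pow_ne_zero _ RatFunc.X_ne_zero), hp]
  simp

/-- For all positive integers `m, n, r`, each of `A`, `B`, `C` is a Laurent polynomial in `q`
all of whose coefficients are non-negative integers. -/
theorem result (m n r : ℕ) (hm : 0 < m) (hn : 0 < n) (_hr : 0 < r) :
    NonnegLaurent (A m n) ∧ NonnegLaurent (B m n r) ∧ NonnegLaurent (C m n r) := by
  have h := Q95.CQ.gen_X
  have h2 : (2 : RatFunc ℚ) ≠ 0 := two_ne_zero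
  refine ⟨of_mem ?_, of_mem ?_, of_mem ?_⟩
  · unfold A
    simp only [P_eq]
    exact Q95.DQ.caseA h h2 RP X_mem X_inv_mem m n hm hn
  · unfold B
    simp only [P_eq]
    exact Q95.DQ.caseB h h2 RP X_mem X_inv_mem m n r hn
  · unfold C
    simp only [P_eq]
    exact Q95.DQ.caseC h h2 RP X_mem X_inv_mem m n r hn

end Pool.Agent.Results.MP_870110_co.DelannoyPositivity
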